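import Pool.Agent.Helper79.CF.Spec

set_option autoImplicit false

/-!
# Effective Conjecture F, part MEA: the measure of the bad sets
-/

namespace Pool.Agent.Helper97.CF.MEA

open Finset Filter Topology MeasureTheory
open Pool.Agent.Helper79.CF
open Pool.Agent.Helper88.EL (ct dg meas_ct dg_meas U01_mono U01_ne_top)
open Pool.Agent.Y895.PM (U01)

lemma large (K E : ℕ) (C : ℝ) (hC : 0 ≤ C) : ∃ N0 : ℕ, 2 ≤ N0 ∧ ∀ N ≥ N0,
    2 * ((Nat.log 2 N : ℝ) + 1) ^ K ≤ N ∧
    (Real.log N) ^ E * ((1 / 2) ^ N + 4 * C * ((Nat.log 2 N : ℝ) + 1) ^ (2 * K) /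
      (Real.log N) ^ (2 * K + E + 1)) ≤ 1 := by
  have hlog : Tendsto (fun N : ℕ => Real.log N) atTop atTop :=
    Real.tendsto_log_atTop.comp tendsto_natCast_atTop_atTop
  have e1 : ∀ᶠ N : ℕ in atTop, (1 : ℝ) ≤ Real.log N := hlog.eventually_ge_atTop 1
  have e2 : ∀ᶠ N : ℕ in atTop, 8 * C * 9 ^ K ≤ Real.log N := hlog.eventually_ge_atTop _
  have e3 : ∀ k : ℕ, ∀ c : ℝ, 0 < c → ∀ᶠ N : ℕ in atTop, (Real.log N) ^ k ≤ c * N := by
    intro k c hc
    have h := (Real.isLittleO_pow_log_id_atTop (n := k)).bound hc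
    have h2 := (tendsto_natCast_atTop_atTop (R := ℝ)).eventually h
    filter_upwards [h2, e1] with N hN h1
    simp only [id, Real.norm_eq_abs] at hN
    rw [abs_of_nonneg (by positivity), abs_of_nonneg (by positivity : (0 : ℝ) ≤ (N : ℝ))] at hN
    exact hN
  have e4 : ∀ᶠ N : ℕ in atTop, (N : ℝ) * (1 / 2) ^ N ≤ 1 / 2 := by
    have h := tendsto_self_mul_const_pow_of_lt_one (r := (1 / 2 : ℝ)) (by norm_num) (by norm_num)
    exact h.eventually (ge_mem_nhds (by norm_num))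
  have h := (e1.and (e2.and ((e3 K (1 / (2 * 3 ^ K)) (by positivity)).and
    ((e3 E 1 one_pos).and (e4.and (eventually_ge_atTop 2))))))
  obtain ⟨N0, hN0⟩ := eventually_atTop.1 h
  refine ⟨max N0 2, le_max_right _ _, fun N hN => ?_⟩
  obtain ⟨a1, a2, a3, a4, a5, a6⟩ := hN0 N ((le_max_left _ _).trans hN)
  set l := Real.log N with hl
  have hl0 : 0 < l := by linarith
  have hL : ((Nat.log 2 N : ℝ) + 1) ≤ 3 * l := by
    have h1 : (Nat.log 2 N : ℝ) ≤ Real.logb 2 N := by
      exact_mod_cast Real.natLog_le_logb N 2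
    have h2 : Real.logb 2 N ≤ 2 * l := by
      unfold Real.logb
      rw [div_le_iff₀ (Real.log_pos (by norm_num))]
      have := Real.log_two_gt_d9
      nlinarith
    linarith
  have hL0 : 0 ≤ (Nat.log 2 N : ℝ) + 1 := by positivity
  constructor
  · calc 2 * ((Nat.log 2 N : ℝ) + 1) ^ K ≤ 2 * (3 * l) ^ K := by gcongr
      _ = (2 * 3 ^ K) * l ^ K := by rw [mul_pow]; ring
      _ ≤ (2 * 3 ^ K) * (1 / (2 * 3 ^ K) * N) := by gcongr
      _ = N := by field_simp
  · have b1 : l ^ E * (1 / 2) ^ N ≤ 1 / 2 := by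
      calc l ^ E * (1 / 2) ^ N ≤ (1 * N) * (1 / 2) ^ N := by gcongr
        _ = N * (1 / 2) ^ N := by ring
        _ ≤ 1 / 2 := a5
    have b2 : l ^ E * (4 * C * ((Nat.log 2 N : ℝ) + 1) ^ (2 * K) / l ^ (2 * K + E + 1)) ≤ 1 / 2 := by
      calc l ^ E * (4 * C * ((Nat.log 2 N : ℝ) + 1) ^ (2 * K) / l ^ (2 * K + E + 1))
          ≤ l ^ E * (4 * C * (3 * l) ^ (2 * K) / l ^ (2 * K + E + 1)) := by gcongr
        _ = 4 * C * 9 ^ K / l := by
            rw [mul_pow, pow_mul 3 2 K]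
            norm_num
            field_simp
            ring
        _ ≤ 1 / 2 := by
            rw [div_le_iff₀ hl0]
            linarith
    rw [mul_add]
    linarith

/-- the ambiguous points -/
lemma amb_meas (hA : S_AMB) (P : ℕ → ℕ) (N : ℕ) :
    U01.real {t | decide (∃ n < N, amb P (UU P N) (dg (UU P N) t) (n + 1) = true) = true} ≤
      (1 / 2) ^ N := by
  rw [meas_ct (UU P N) (fun x => decide (∃ n < N, amb P (UU P N) x (n + 1) = true))]
  have h1 := hA P (UU P N) N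
  have h2 : ∑ n ∈ range N, P (n + 1) ≤ JJ P N := by
    unfold JJ
    rw [Finset.sum_range_succ']
    refine le_trans (Finset.sum_le_sum fun n _ => ?_) (Nat.le_add_right _ _)
    omega
  have h3 : JJ P N ≤ 2 ^ JJ P N := Nat.lt_two_pow_self.le
  have h4 : (ct (UU P N) (fun x => decide (∃ n < N, amb P (UU P N) x (n + 1) = true)) : ℝ) ≤
      2 ^ JJ P N := by exact_mod_cast (h1.trans h2).trans h3
  have h5 : (2 : ℝ) ^ UU P N = 2 ^ N * 2 ^ JJ P N := by
    unfold UU
    rw [pow_add]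
  rw [h5, div_le_iff₀ (by positivity), ← mul_assoc, ← mul_pow]
  norm_num
  exact h4

lemma jj_pos (P : ℕ → ℕ) (N : ℕ) : 0 < JJ P N := by
  unfold JJ
  exact Finset.sum_pos (fun n _ => by omega) ⟨0, by simp⟩

theorem main (h2 : S_L2) (hD : S_DEV) (hA : S_AMB) : S_MEA := by
  intro P Q hP K E
  obtain ⟨C, hC0, hC⟩ := h2 P Q hP (2 * K + E + 1)
  obtain ⟨N0, hN0, hN⟩ := large K E C hC0
  refine ⟨N0, fun N hNN s => ?_⟩
  have hN2 : 2 ≤ N := hN0.trans hNN
  obtain ⟨hL1, hL2⟩ := hN N hNN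
  have hNr : (0 : ℝ) < N := by positivity
  have hl0 : 0 < Real.log N := Real.log_pos (by exact_mod_cast hN2)
  set L : ℝ := (Nat.log 2 N : ℝ) + 1 with hLdef
  have hL0 : 0 < L := by positivity
  set u := UU P N with hu
  set A1 : Set ℝ := {t | decide (∃ n < N, amb P u (dg u t) (n + 1) = true) = true} with hA1
  set A2 : Set ℝ := {t | (bad P s K N (dg u t) &&
    ! decide (∃ n < N, amb P u (dg u t) (n + 1) = true)) = true} with hA2
  have hcov : {t | bad P s K N (dg u t) = true} ⊆ A1 ∪ A2 := by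
    intro t ht
    have ht' : bad P s K N (dg u t) = true := ht
    by_cases h : decide (∃ n < N, amb P u (dg u t) (n + 1) = true) = true
    · exact Or.inl h
    · right
      show (bad P s K N (dg u t) && ! decide (∃ n < N, amb P u (dg u t) (n + 1) = true)) = true
      have h' : decide (∃ n < N, amb P u (dg u t) (n + 1) = true) = false := by
        simpa only [Bool.not_eq_true] using h
      rw [ht', h']
      rfl
  have m1 : U01.real A1 ≤ (1 / 2) ^ N := amb_meas hA P N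
  have hmA2 : MeasurableSet A2 := dg_meas u (fun x => (bad P s K N x &&
    ! decide (∃ n < N, amb P u x (n + 1) = true)) = true)
  -- lower bound
  set c : ℝ := N / (2 * L ^ K) with hc
  have hc1 : 1 ≤ c := by
    rw [hc, le_div_iff₀ (by positivity), one_mul]
    exact hL1
  have key : ∀ t ∈ A2 ∩ Set.Ico (0 : ℝ) 1, c ≤ ‖SS P s t N‖ := by
    rintro t ⟨ht, ht0, ht1⟩
    have ht' : (bad P s K N (dg u t) &&
      ! decide (∃ n < N, amb P u (dg u t) (n + 1) = true)) = true := ht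
    rw [Bool.and_eq_true, Bool.not_eq_true', decide_eq_false_iff_not] at ht'
    obtain ⟨hb, hna⟩ := ht'
    have hna' : ∀ n < N, amb P u (dg u t) (n + 1) = false := by
      intro n hn
      by_contra hcon
      exact hna ⟨n, hn, by simpa using hcon⟩
    have hx1 : ((dg u t : ℕ) : ℝ) ≤ 2 ^ u * t := Nat.floor_le (by positivity)
    have hx2 : (2 : ℝ) ^ u * t ≤ (dg u t : ℕ) + 1 := (Nat.lt_floor_add_one _).le
    have hdev := hD P s N (dg u t) t hx1 hx2 ht0 ht1.le hna'
    unfold bad at hb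
    rw [Bool.or_eq_true, decide_eq_true_eq, decide_eq_true_eq] at hb
    have hb' : JJ P N * N < (Nat.log 2 N + 1) ^ K * dev P s N (dg u t) := by
      rcases hb with hb | hb
      · exact hb
      · exact absurd hb hna
    have hJ : (0 : ℝ) < JJ P N := by exact_mod_cast jj_pos P N
    have hb2 : (JJ P N : ℝ) * N < L ^ K * dev P s N (dg u t) := by
      rw [hLdef]
      exact_mod_cast hb'
    have hb3 : 2 * c ≤ (dev P s N (dg u t) : ℝ) / JJ P N := by
      rw [hc, le_div_iff₀ hJ]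
      have : 2 * ((N : ℝ) / (2 * L ^ K)) * JJ P N = (JJ P N * N) / L ^ K := by
        field_simp
      rw [this, div_le_iff₀ (by positivity)]
      linarith
    have := (abs_le.1 hdev).2
    linarith
  have m2 : U01.real A2 ≤ 4 * C * L ^ (2 * K) / (Real.log N) ^ (2 * K + E + 1) := by
    have g1 : ENNReal.ofReal (c ^ 2) * volume (A2 ∩ Set.Ico (0 : ℝ) 1) ≤
        ENNReal.ofReal (C * (N : ℝ) ^ 2 / (Real.log N) ^ (2 * K + E + 1)) := by
      calc ENNReal.ofReal (c ^ 2) * volume (A2 ∩ Set.Ico (0 : ℝ) 1)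
          = ∫⁻ _t in A2 ∩ Set.Ico (0 : ℝ) 1, ENNReal.ofReal (c ^ 2) := by
            rw [setLIntegral_const]
        _ ≤ ∫⁻ t in A2 ∩ Set.Ico (0 : ℝ) 1, ‖SS P s t N‖ₑ ^ 2 := by
            refine setLIntegral_mono' (hmA2.inter measurableSet_Ico) fun t ht => ?_
            rw [ENNReal.ofReal_pow (by positivity), ← ofReal_norm]
            exact pow_le_pow_left' (ENNReal.ofReal_le_ofReal (key t ht)) 2
        _ ≤ ∫⁻ t in Set.Icc (0 : ℝ) 1, ‖SS P s t N‖ₑ ^ 2 :=
            lintegral_mono_set (Set.inter_subset_right.trans Set.Ico_subset_Icc_self)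
        _ ≤ _ := hC N hN2 s
    have g2 : U01 A2 = volume (A2 ∩ Set.Ico (0 : ℝ) 1) := by
      unfold U01
      rw [Measure.restrict_apply hmA2]
    rw [← g2, ← ENNReal.ofReal_toReal (U01_ne_top A2), ← ENNReal.ofReal_mul (by positivity),
      ENNReal.ofReal_le_ofReal_iff (by positivity)] at g1
    have g3 : c ^ 2 * U01.real A2 ≤ C * (N : ℝ) ^ 2 / (Real.log N) ^ (2 * K + E + 1) := g1
    have hc2 : 0 < c ^ 2 := by positivity
    have g4 : U01.real A2 ≤ C * (N : ℝ) ^ 2 / (Real.log N) ^ (2 * K + E + 1) / c ^ 2 := by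
      rw [le_div_iff₀ hc2]
      linarith
    refine g4.trans (le_of_eq ?_)
    rw [hc, pow_mul' L 2 K]
    field_simp
    ring
  have m3 : U01.real {t | bad P s K N (dg u t) = true} ≤
      (1 / 2) ^ N + 4 * C * L ^ (2 * K) / (Real.log N) ^ (2 * K + E + 1) :=
    (U01_mono hcov).trans ((measureReal_union_le _ _).trans (add_le_add m1 m2))
  rw [meas_ct, div_le_iff₀ (by positivity)] at m3
  calc (Real.log N) ^ E * (ct u (bad P s K N) : ℝ)
      ≤ (Real.log N) ^ E * (((1 / 2) ^ N + 4 * C * L ^ (2 * K) /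
        (Real.log N) ^ (2 * K + E + 1)) * 2 ^ u) := by gcongr
    _ = ((Real.log N) ^ E * ((1 / 2) ^ N + 4 * C * L ^ (2 * K) /
        (Real.log N) ^ (2 * K + E + 1))) * 2 ^ u := by ring
    _ ≤ 1 * 2 ^ u := by gcongr
    _ = 2 ^ u := one_mul _

end Pool.Agent.Helper97.CF.MEA
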